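import Mathlib

set_option autoImplicit false

namespace Pool.Agent.Helper36.EC

/-- Distinct free generators do not commute. -/
theorem of_commute_eq {α : Type} (i j : α)
    (h : FreeGroup.of i * FreeGroup.of j = FreeGroup.of j * FreeGroup.of i) : i = j := by
  classical
  by_contra hij
  let f : FreeGroup α →* Equiv.Perm (Fin 3) :=
    FreeGroup.lift (fun k => if k = i then Equiv.swap 0 1 else Equiv.swap 1 2)
  have h1 := congrArg f h
  have hji : j ≠ i := fun h => hij h.symm
  simp only [map_mul, f, FreeGroup.lift_apply_of, if_true, if_neg hji] at h1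
  revert h1
  decide

/-- Commuting elements of a free group are powers of a common element. -/
theorem exists_common_power {α : Type} (x y : FreeGroup α) (h : Commute x y) :
    ∃ g : FreeGroup α, ∃ i j : ℤ, x = g ^ i ∧ y = g ^ j := by
  classical
  let H : Subgroup (FreeGroup α) := Subgroup.closure {x, y}
  have hx : x ∈ H := Subgroup.subset_closure (by simp)
  have hy : y ∈ H := Subgroup.subset_closure (by simp)
  have hcomm : IsMulCommutative H := by
    apply Subgroup.isMulCommutative_closure
    intro a ha b hb
    simp only [Set.mem_insert_iff, Set.mem_singleton_iff] at ha hb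
    rcases ha with rfl | rfl <;> rcases hb with rfl | rfl
    · rfl
    · exact h
    · exact h.symm
    · rfl
  haveI : IsFreeGroup H := inferInstance
  let B : FreeGroupBasis (IsFreeGroup.Generators H) H := IsFreeGroup.basis H
  have hsub : ∀ i j : IsFreeGroup.Generators H, i = j := by
    intro i j
    apply of_commute_eq
    apply B.repr.symm.injective
    rw [map_mul, map_mul]
    exact hcomm.is_comm.comm _ _
  by_cases hne : Nonempty (IsFreeGroup.Generators H)
  · obtain ⟨i0⟩ := hne
    have key : ∀ z : H, z ∈ Subgroup.zpowers (B i0) := by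
      intro z
      let L : H →* Subgroup.zpowers (B i0) :=
        B.lift (fun _ => ⟨B i0, Subgroup.mem_zpowers _⟩)
      have hL : (Subgroup.zpowers (B i0)).subtype.comp L = MonoidHom.id H := by
        apply B.ext_hom
        intro i
        have hi : i = i0 := hsub _ _
        subst hi
        simp [L]
      have := DFunLike.congr_fun hL z
      simp only [MonoidHom.comp_apply, MonoidHom.id_apply] at this
      rw [← this]
      exact (L z).2
    obtain ⟨i, hi⟩ := Subgroup.mem_zpowers_iff.mp (key ⟨x, hx⟩)
    obtain ⟨j, hj⟩ := Subgroup.mem_zpowers_iff.mp (key ⟨y, hy⟩)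
    refine ⟨(B i0 : FreeGroup α), i, j, ?_, ?_⟩
    · have := congrArg Subtype.val hi
      simpa using this.symm
    · have := congrArg Subtype.val hj
      simpa using this.symm
  · have key : ∀ z : H, z = 1 := by
      intro z
      have hL : MonoidHom.id H = 1 := by
        apply B.ext_hom
        intro i
        exact absurd ⟨i⟩ hne
      have := DFunLike.congr_fun hL z
      simpa using this
    have h1 := congrArg Subtype.val (key ⟨x, hx⟩)
    have h2 := congrArg Subtype.val (key ⟨y, hy⟩)
    refine ⟨1, 0, 0, ?_, ?_⟩
    · simpa using h1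
    · simpa using h2

/-- If `c` is not a proper power in a free group then its centralizer is generated by it. -/
theorem mem_zpowers_of_commute {α : Type} (c z : FreeGroup α)
    (hc : ∀ (g : FreeGroup α) (j : ℤ), c = g ^ j → j = 1 ∨ j = -1)
    (h : Commute z c) : z ∈ Subgroup.zpowers c := by
  obtain ⟨g, i, j, hi, hj⟩ := exists_common_power z c h
  rcases hc g j hj with rfl | rfl
  · refine Subgroup.mem_zpowers_iff.mpr ⟨i, ?_⟩
    rw [hi, hj, zpow_one]
  · refine Subgroup.mem_zpowers_iff.mpr ⟨-i, ?_⟩
    rw [hi, hj]
    simp

/-- In a free group, if `g ^ 2` commutes with `u` then so does `g`. -/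
theorem commute_of_sq {α : Type} (g u : FreeGroup α) (h : Commute (g ^ 2) u) : Commute g u := by
  have h1 : (u⁻¹ * g * u) ^ 2 = g ^ 2 := by
    have h2 : (u⁻¹ * g * u) ^ 2 = u⁻¹ * (g ^ 2 * u) := by
      simp [pow_two, mul_assoc]
    rw [h2, h.eq]
    simp [mul_assoc]
  have h3 : u⁻¹ * g * u = g := pow_left_injective (n := 2) (by norm_num) h1
  have h4 : g * u = u * g := by
    calc g * u = u * (u⁻¹ * g * u) := by simp [mul_assoc]
      _ = u * g := by rw [h3]
  exact h4

end Pool.Agent.Helper36.EC
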