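import Mathlib
import Pool.Agent.Helper36.ECFree

set_option autoImplicit false

namespace Pool.Agent.Helper36.EC

open Matrix

/-- Nonzero integral vectors of length two. -/
abbrev NZ := {v : Fin 2 → ℤ // v ≠ 0}

/-- The linear action of `GL_2(ℤ)` on nonzero integral vectors. -/
instance actNZ : MulAction (GL (Fin 2) ℤ) NZ where
  smul g v := ⟨(g : Matrix (Fin 2) (Fin 2) ℤ).mulVec v.1, by
    intro h
    apply v.2
    have h1 : ((g⁻¹ : GL (Fin 2) ℤ) : Matrix (Fin 2) (Fin 2) ℤ).mulVec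
        ((g : Matrix (Fin 2) (Fin 2) ℤ).mulVec v.1) = v.1 := by
      rw [Matrix.mulVec_mulVec, ← Units.val_mul, inv_mul_cancel]
      simp
    rw [← h1, h]
    simp⟩
  one_smul v := by
    apply Subtype.ext
    change ((1 : GL (Fin 2) ℤ) : Matrix (Fin 2) (Fin 2) ℤ).mulVec v.1 = v.1
    simp
  mul_smul g h v := by
    apply Subtype.ext
    change ((g * h : GL (Fin 2) ℤ) : Matrix (Fin 2) (Fin 2) ℤ).mulVec v.1 =
      (g : Matrix (Fin 2) (Fin 2) ℤ).mulVec ((h : Matrix (Fin 2) (Fin 2) ℤ).mulVec v.1)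
    rw [Units.val_mul, Matrix.mulVec_mulVec]

theorem smul_coe (g : GL (Fin 2) ℤ) (v : NZ) :
    (g • v).1 = (g : Matrix (Fin 2) (Fin 2) ℤ).mulVec v.1 := rfl

/-- An element of `GL_2(ℤ)` from explicit entries of it and of its inverse. -/
def mk (a b c d a' b' c' d' : ℤ)
    (h1 : a * a' + b * c' = 1) (h2 : a * b' + b * d' = 0) (h3 : c * a' + d * c' = 0)
    (h4 : c * b' + d * d' = 1)
    (k1 : a' * a + b' * c = 1) (k2 : a' * b + b' * d = 0) (k3 : c' * a + d' * c = 0)
    (k4 : c' * b + d' * d = 1) : GL (Fin 2) ℤ where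
  val := !![a, b; c, d]
  inv := !![a', b'; c', d']
  val_inv := by
    rw [Matrix.mul_fin_two, h1, h2, h3, h4, Matrix.one_fin_two]
  inv_val := by
    rw [Matrix.mul_fin_two, k1, k2, k3, k4, Matrix.one_fin_two]

/-- Generator `x` of the punctured Klein bottle group. -/
def KX : GL (Fin 2) ℤ := mk 1 1 (-1) (-2) 2 1 (-1) (-1) (by norm_num) (by norm_num) (by norm_num)
  (by norm_num) (by norm_num) (by norm_num) (by norm_num) (by norm_num)

/-- Generator `y` of the punctured Klein bottle group. -/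
def KY : GL (Fin 2) ℤ := mk 2 (-1) 1 (-1) 1 (-1) 1 (-2) (by norm_num) (by norm_num) (by norm_num)
  (by norm_num) (by norm_num) (by norm_num) (by norm_num) (by norm_num)

/-- Upper Sanov generator. -/
def SU : GL (Fin 2) ℤ := mk 1 2 0 1 1 (-2) 0 1 (by norm_num) (by norm_num) (by norm_num)
  (by norm_num) (by norm_num) (by norm_num) (by norm_num) (by norm_num)

/-- Lower Sanov generator. -/
def SL : GL (Fin 2) ℤ := mk 1 0 2 1 1 0 (-2) 1 (by norm_num) (by norm_num) (by norm_num)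
  (by norm_num) (by norm_num) (by norm_num) (by norm_num) (by norm_num)

theorem KX_smul (v : NZ) : (KX • v).1 = ![v.1 0 + v.1 1, -v.1 0 - 2 * v.1 1] := by
  rw [smul_coe]
  funext i
  fin_cases i <;> simp [KX, mk, Matrix.mulVec, dotProduct, Fin.sum_univ_two] <;> ring

theorem KXi_smul (v : NZ) : (KX⁻¹ • v).1 = ![2 * v.1 0 + v.1 1, -v.1 0 - v.1 1] := by
  rw [smul_coe]
  funext i
  fin_cases i <;> simp [KX, mk, Matrix.mulVec, dotProduct, Fin.sum_univ_two] <;> ring

theorem KY_smul (v : NZ) : (KY • v).1 = ![2 * v.1 0 - v.1 1, v.1 0 - v.1 1] := by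
  rw [smul_coe]
  funext i
  fin_cases i <;> simp [KY, mk, Matrix.mulVec, dotProduct, Fin.sum_univ_two] <;> ring

theorem KYi_smul (v : NZ) : (KY⁻¹ • v).1 = ![v.1 0 - v.1 1, v.1 0 - 2 * v.1 1] := by
  rw [smul_coe]
  funext i
  fin_cases i <;> simp [KY, mk, Matrix.mulVec, dotProduct, Fin.sum_univ_two] <;> ring

theorem SU_smul (v : NZ) : (SU • v).1 = ![v.1 0 + 2 * v.1 1, v.1 1] := by
  rw [smul_coe]
  funext i
  fin_cases i <;> simp [SU, mk, Matrix.mulVec, dotProduct, Fin.sum_univ_two]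

theorem SUi_smul (v : NZ) : (SU⁻¹ • v).1 = ![v.1 0 - 2 * v.1 1, v.1 1] := by
  rw [smul_coe]
  funext i
  fin_cases i <;> simp [SU, mk, Matrix.mulVec, dotProduct, Fin.sum_univ_two] <;> ring

theorem SL_smul (v : NZ) : (SL • v).1 = ![v.1 0, 2 * v.1 0 + v.1 1] := by
  rw [smul_coe]
  funext i
  fin_cases i <;> simp [SL, mk, Matrix.mulVec, dotProduct, Fin.sum_univ_two]

theorem SLi_smul (v : NZ) : (SL⁻¹ • v).1 = ![v.1 0, v.1 1 - 2 * v.1 0] := by
  rw [smul_coe]
  funext i
  fin_cases i <;> simp [SL, mk, Matrix.mulVec, dotProduct, Fin.sum_univ_two] <;> ring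

/-- `z < -1`. -/
def A1 : Set NZ := {v | (0 < v.1 0 ∧ v.1 1 < 0 ∧ -v.1 1 < v.1 0) ∨
  (v.1 0 < 0 ∧ 0 < v.1 1 ∧ v.1 1 < -v.1 0)}
/-- `-1 ≤ z ≤ 0`. -/
def A2 : Set NZ := {v | (0 ≤ v.1 0 ∧ v.1 1 ≤ 0 ∧ v.1 0 ≤ -v.1 1) ∨
  (v.1 0 ≤ 0 ∧ 0 ≤ v.1 1 ∧ -v.1 0 ≤ v.1 1)}
/-- `0 < z < 1`. -/
def A3 : Set NZ := {v | (0 < v.1 0 ∧ 0 < v.1 1 ∧ v.1 0 < v.1 1) ∨
  (v.1 0 < 0 ∧ v.1 1 < 0 ∧ v.1 1 < v.1 0)}
/-- `1 ≤ z ≤ ∞`. -/
def A4 : Set NZ := {v | (0 ≤ v.1 0 ∧ 0 ≤ v.1 1 ∧ v.1 1 ≤ v.1 0) ∨
  (v.1 0 ≤ 0 ∧ v.1 1 ≤ 0 ∧ v.1 0 ≤ v.1 1)}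
/-- `-1 ≤ z < 0`. -/
def A5 : Set NZ := {v | (0 < v.1 0 ∧ v.1 1 < 0 ∧ v.1 0 ≤ -v.1 1) ∨
  (v.1 0 < 0 ∧ 0 < v.1 1 ∧ -v.1 0 ≤ v.1 1)}
/-- `0 ≤ z < 1`. -/
def A6 : Set NZ := {v | (0 ≤ v.1 0 ∧ 0 < v.1 1 ∧ v.1 0 < v.1 1) ∨
  (v.1 0 ≤ 0 ∧ v.1 1 < 0 ∧ v.1 1 < v.1 0)}

theorem nz_or (v : NZ) : v.1 0 ≠ 0 ∨ v.1 1 ≠ 0 := by
  by_contra h
  push Not at h
  apply v.2
  funext i
  fin_cases i
  · simpa using h.1
  · simpa using h.2

theorem disj_of {S T : Set NZ} (h : ∀ v : NZ, v ∈ S → v ∈ T → False) : Disjoint S T := by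
  rw [Set.disjoint_left]
  exact h

/-- Matrices `KX`, `KY` generate a free group. -/
theorem injK : Function.Injective (FreeGroup.lift ![KX, KY]) := by
  apply FreeGroup.injective_lift_of_ping_pong (α := NZ) ![KX, KY] ![A2, A4] ![A1, A3]
  · intro i
    fin_cases i
    · refine ⟨⟨![0, 1], by intro h; have := congrFun h 1; simp at this⟩, ?_⟩
      simp [A2]
    · refine ⟨⟨![1, 0], by intro h; have := congrFun h 0; simp at this⟩, ?_⟩
      simp [A4]
  · intro i j hij
    fin_cases i <;> fin_cases j <;> first | exact absurd rfl hij | skip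
    · apply disj_of
      intro v h1 h2
      have := nz_or v
      simp only [A2, A4, Set.mem_ofPred_eq, Fin.zero_eta, Fin.mk_one, Matrix.cons_val_zero,
        Matrix.cons_val_one] at h1 h2
      omega
    · apply disj_of
      intro v h1 h2
      have := nz_or v
      simp only [A2, A4, Set.mem_ofPred_eq, Fin.zero_eta, Fin.mk_one, Matrix.cons_val_zero,
        Matrix.cons_val_one] at h1 h2
      omega
  · intro i j hij
    fin_cases i <;> fin_cases j <;> first | exact absurd rfl hij | skip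
    · apply disj_of
      intro v h1 h2
      simp only [A1, A3, Set.mem_ofPred_eq, Fin.zero_eta, Fin.mk_one, Matrix.cons_val_zero,
        Matrix.cons_val_one] at h1 h2
      omega
    · apply disj_of
      intro v h1 h2
      simp only [A1, A3, Set.mem_ofPred_eq, Fin.zero_eta, Fin.mk_one, Matrix.cons_val_zero,
        Matrix.cons_val_one] at h1 h2
      omega
  · intro i j
    fin_cases i <;> fin_cases j
    all_goals
      apply disj_of
      intro v h1 h2
      have := nz_or v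
      simp only [A1, A2, A3, A4, Set.mem_ofPred_eq, Fin.zero_eta, Fin.mk_one, Matrix.cons_val_zero,
        Matrix.cons_val_one] at h1 h2
      omega
  · intro i
    fin_cases i
    · rintro w ⟨v, hv, rfl⟩
      simp only [A1, A2, Set.mem_ofPred_eq, Set.mem_compl_iff, Fin.zero_eta,
        Matrix.cons_val_zero] at hv ⊢
      rw [KX_smul]
      simp only [Matrix.cons_val_zero, Matrix.cons_val_one]
      omega
    · rintro w ⟨v, hv, rfl⟩
      change v ∉ A3 at hv
      change KY • v ∈ A4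
      simp only [A3, A4, Set.mem_ofPred_eq] at hv ⊢
      rw [KY_smul]
      simp only [Matrix.cons_val_zero, Matrix.cons_val_one]
      omega
  · intro i
    fin_cases i
    · rintro w ⟨v, hv, rfl⟩
      have := nz_or v
      simp only [A1, A2, Set.mem_ofPred_eq, Set.mem_compl_iff, Fin.zero_eta, Pi.inv_apply,
        Matrix.cons_val_zero] at hv ⊢
      rw [KXi_smul]
      simp only [Matrix.cons_val_zero, Matrix.cons_val_one]
      omega
    · rintro w ⟨v, hv, rfl⟩
      have := nz_or v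
      change v ∉ A4 at hv
      change KY⁻¹ • v ∈ A3
      simp only [A3, A4, Set.mem_ofPred_eq] at hv ⊢
      rw [KYi_smul]
      simp only [Matrix.cons_val_zero, Matrix.cons_val_one]
      omega

/-- The Sanov matrices `SU`, `SL` generate a free group. -/
theorem injS : Function.Injective (FreeGroup.lift ![SU, SL]) := by
  apply FreeGroup.injective_lift_of_ping_pong (α := NZ) ![SU, SL] ![A4, A6] ![A1, A5]
  · intro i
    fin_cases i
    · refine ⟨⟨![1, 0], by intro h; have := congrFun h 0; simp at this⟩, ?_⟩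
      simp [A4]
    · refine ⟨⟨![0, 1], by intro h; have := congrFun h 1; simp at this⟩, ?_⟩
      simp [A6]
  · intro i j hij
    fin_cases i <;> fin_cases j <;> first | exact absurd rfl hij | skip
    all_goals
      apply disj_of
      intro v h1 h2
      have := nz_or v
      simp only [A4, A6, Set.mem_ofPred_eq, Fin.zero_eta, Fin.mk_one, Matrix.cons_val_zero,
        Matrix.cons_val_one] at h1 h2
      omega
  · intro i j hij
    fin_cases i <;> fin_cases j <;> first | exact absurd rfl hij | skip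
    all_goals
      apply disj_of
      intro v h1 h2
      simp only [A1, A5, Set.mem_ofPred_eq, Fin.zero_eta, Fin.mk_one, Matrix.cons_val_zero,
        Matrix.cons_val_one] at h1 h2
      omega
  · intro i j
    fin_cases i <;> fin_cases j
    all_goals
      apply disj_of
      intro v h1 h2
      have := nz_or v
      simp only [A1, A4, A5, A6, Set.mem_ofPred_eq, Fin.zero_eta, Fin.mk_one, Matrix.cons_val_zero,
        Matrix.cons_val_one] at h1 h2
      omega
  · intro i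
    fin_cases i
    · rintro w ⟨v, hv, rfl⟩
      simp only [A1, A4, Set.mem_ofPred_eq, Set.mem_compl_iff, Fin.zero_eta,
        Matrix.cons_val_zero] at hv ⊢
      rw [SU_smul]
      simp only [Matrix.cons_val_zero, Matrix.cons_val_one]
      omega
    · rintro w ⟨v, hv, rfl⟩
      have := nz_or v
      change v ∉ A5 at hv
      change SL • v ∈ A6
      simp only [A5, A6, Set.mem_ofPred_eq] at hv ⊢
      rw [SL_smul]
      simp only [Matrix.cons_val_zero, Matrix.cons_val_one]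
      omega
  · intro i
    fin_cases i
    · rintro w ⟨v, hv, rfl⟩
      have := nz_or v
      simp only [A1, A4, Set.mem_ofPred_eq, Set.mem_compl_iff, Fin.zero_eta, Pi.inv_apply,
        Matrix.cons_val_zero] at hv ⊢
      rw [SUi_smul]
      simp only [Matrix.cons_val_zero, Matrix.cons_val_one]
      omega
    · rintro w ⟨v, hv, rfl⟩
      have := nz_or v
      change v ∉ A6 at hv
      change SL⁻¹ • v ∈ A5
      simp only [A5, A6, Set.mem_ofPred_eq] at hv ⊢
      rw [SLi_smul]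
      simp only [Matrix.cons_val_zero, Matrix.cons_val_one]
      omega

end Pool.Agent.Helper36.EC
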