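import Mathlib
import Pool.Agent.Helper36.ECMat

set_option autoImplicit false

namespace Pool.Agent.Helper36.EC

open Matrix Polynomial Filter

/-- If a faithful integral representation sends `u` to plus or minus a lower unipotent matrix then
every element whose upper right entry vanishes commutes with `u`. -/
theorem commute_of_entry_zero {α : Type} (ρ : FreeGroup α →* GL (Fin 2) ℤ)
    (hρ : Function.Injective ρ) (u g : FreeGroup α) (s c : ℤ)
    (hu : (ρ u : Matrix (Fin 2) (Fin 2) ℤ) = !![s, 0; c, s])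
    (hg : (ρ g : Matrix (Fin 2) (Fin 2) ℤ) 0 1 = 0) : Commute g u := by
  apply commute_of_sq
  have h1 : Commute (ρ (g ^ 2)) (ρ u) := by
    apply Units.ext
    have hdet : IsUnit (ρ g : Matrix (Fin 2) (Fin 2) ℤ).det := by
      have := (Matrix.isUnit_iff_isUnit_det (ρ g : Matrix (Fin 2) (Fin 2) ℤ)).mp (ρ g).isUnit
      exact this
    rw [Matrix.det_fin_two, hg, zero_mul, sub_zero] at hdet
    have h00 : IsUnit ((ρ g : Matrix (Fin 2) (Fin 2) ℤ) 0 0) := isUnit_of_mul_isUnit_left hdet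
    have h11 : IsUnit ((ρ g : Matrix (Fin 2) (Fin 2) ℤ) 1 1) := isUnit_of_mul_isUnit_right hdet
    have hM : (ρ g : Matrix (Fin 2) (Fin 2) ℤ) =
        !![(ρ g : Matrix (Fin 2) (Fin 2) ℤ) 0 0, 0; (ρ g : Matrix (Fin 2) (Fin 2) ℤ) 1 0,
          (ρ g : Matrix (Fin 2) (Fin 2) ℤ) 1 1] := by
      conv_lhs => rw [Matrix.eta_fin_two (ρ g : Matrix (Fin 2) (Fin 2) ℤ), hg]
    generalize (ρ g : Matrix (Fin 2) (Fin 2) ℤ) 0 0 = a at *
    generalize (ρ g : Matrix (Fin 2) (Fin 2) ℤ) 1 0 = b at *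
    generalize (ρ g : Matrix (Fin 2) (Fin 2) ℤ) 1 1 = e at *
    rw [map_pow, Units.val_mul, Units.val_mul, Units.val_pow_eq_pow_val, hM, hu, pow_two]
    have ha : a * a = 1 := by
      rcases Int.isUnit_iff.mp h00 with rfl | rfl <;> norm_num
    have he : e * e = 1 := by
      rcases Int.isUnit_iff.mp h11 with rfl | rfl <;> norm_num
    simp only [Matrix.mul_fin_two]
    ext i j
    fin_cases i <;> fin_cases j
    · simp; ring
    · simp
    · simp
      linear_combination c * he - c * ha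
    · simp; ring
  apply hρ
  rw [map_mul, map_mul]
  exact h1

section alternating

variable {Λ : Type} [Group Λ]

/-- `side A B true = A` and `side A B false = B`. -/
def side (A B : Subgroup Λ) (s : Bool) : Subgroup Λ := cond s A B

/-- Alternating words in `A` and `B` with letters not commuting with `d`; the flag tells
in which subgroup the first letter lies. -/
inductive Alt (A B : Subgroup Λ) (d : Λ) : Bool → List Λ → Prop
  | one {s : Bool} {z : Λ} (hz : z ∈ side A B s) (hd : ¬ Commute z d) : Alt A B d s [z]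
  | cons {s : Bool} {z : Λ} {l : List Λ} (hz : z ∈ side A B s) (hd : ¬ Commute z d)
      (hl : Alt A B d (!s) l) : Alt A B d s (z :: l)

theorem Alt.not_commute {A B : Subgroup Λ} {d : Λ} {s : Bool} {l : List Λ} (h : Alt A B d s l) :
    ∀ z ∈ l, ¬ Commute z d := by
  induction h with
  | one hz hd => simpa using hd
  | cons hz hd hl ih =>
    intro z hz'
    rcases List.mem_cons.mp hz' with rfl | h
    · exact hd
    · exact ih z h

theorem Alt.mem_union {A B : Subgroup Λ} {d : Λ} {s : Bool} {l : List Λ} (h : Alt A B d s l) :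
    ∀ z ∈ l, z ∈ A ∨ z ∈ B := by
  induction h with
  | @one s z hz hd =>
    intro w hw
    rw [List.mem_singleton] at hw
    subst hw
    cases s
    · exact Or.inr hz
    · exact Or.inl hz
  | @cons s z l hz hd hl ih =>
    intro w hw
    rcases List.mem_cons.mp hw with rfl | h
    · cases s
      · exact Or.inr hz
      · exact Or.inl hz
    · exact ih w h

theorem not_commute_mul {c z d : Λ} (hc : Commute c d) (hz : ¬ Commute z d) :
    ¬ Commute (c * z) d := by
  intro h
  apply hz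
  have h2 : z = c⁻¹ * (c * z) := by simp
  rw [h2]
  exact (hc.inv_left).mul_left h

theorem not_commute_mul' {c z d : Λ} (hc : Commute c d) (hz : ¬ Commute z d) :
    ¬ Commute (z * c) d := by
  intro h
  apply hz
  have h2 : z = (z * c) * c⁻¹ := by simp
  rw [h2]
  exact h.mul_left (hc.inv_left)

theorem Alt.absorb {A B : Subgroup Λ} {d : Λ} {s : Bool} {l : List Λ} (h : Alt A B d s l)
    {c : Λ} (hcA : c ∈ A) (hcB : c ∈ B) (hc : Commute c d) :
    ∃ l', Alt A B d s l' ∧ l'.prod = c * l.prod := by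
  have hside : ∀ s, c ∈ side A B s := by
    intro s
    cases s
    · exact hcB
    · exact hcA
  cases h with
  | @one s z hz hd =>
    exact ⟨[c * z], Alt.one ((side A B s).mul_mem (hside s) hz) (not_commute_mul hc hd), by simp⟩
  | @cons s z l hz hd hl =>
    exact ⟨(c * z) :: l, Alt.cons ((side A B s).mul_mem (hside s) hz) (not_commute_mul hc hd) hl,
      by simp [mul_assoc]⟩

/-- Normal form for elements of the subgroup generated by `A` and `B`. -/
theorem exists_alt {A B : Subgroup Λ} {d : Λ}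
    (hAB : ∀ z ∈ A, Commute z d → z ∈ B) (hBA : ∀ z ∈ B, Commute z d → z ∈ A)
    {g : Λ} (hg : g ∈ A ⊔ B) :
    (g ∈ A ∧ g ∈ B ∧ Commute g d) ∨ ∃ s l, Alt A B d s l ∧ l.prod = g := by
  have hboth : ∀ s z, z ∈ side A B s → Commute z d → z ∈ A ∧ z ∈ B := by
    intro s z hz hc
    cases s
    · exact ⟨hBA z hz hc, hz⟩
    · exact ⟨hz, hAB z hz hc⟩
  have hbn : ∀ s s' : Bool, s ≠ s' → s' = !s := by decide
  have step : ∀ (s0 : Bool) (z : Λ), z ∈ side A B s0 → ∀ g : Λ,
      ((g ∈ A ∧ g ∈ B ∧ Commute g d) ∨ ∃ s l, Alt A B d s l ∧ l.prod = g) →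
      ((z * g ∈ A ∧ z * g ∈ B ∧ Commute (z * g) d) ∨ ∃ s l, Alt A B d s l ∧ l.prod = z * g) := by
    intro s0 z hz g hg
    by_cases hzd : Commute z d
    · obtain ⟨hzA, hzB⟩ := hboth s0 z hz hzd
      rcases hg with ⟨hgA, hgB, hgd⟩ | ⟨s, l, hl, rfl⟩
      · exact Or.inl ⟨A.mul_mem hzA hgA, B.mul_mem hzB hgB, hzd.mul_left hgd⟩
      · obtain ⟨l', hl', hp⟩ := hl.absorb hzA hzB hzd
        exact Or.inr ⟨s, l', hl', hp⟩
    · rcases hg with ⟨hgA, hgB, hgd⟩ | ⟨s, l, hl, rfl⟩
      · refine Or.inr ⟨s0, [z * g], Alt.one ?_ (not_commute_mul' hgd hzd), by simp⟩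
        refine (side A B s0).mul_mem hz ?_
        cases s0
        · exact hgB
        · exact hgA
      · by_cases hs : s0 = s
        · subst hs
          cases hl with
          | @one _ z1 hz1 hd1 =>
            by_cases hzz : Commute (z * z1) d
            · obtain ⟨h1, h2⟩ := hboth s0 (z * z1) ((side A B s0).mul_mem hz hz1) hzz
              refine Or.inl ?_
              simp only [List.prod_singleton]
              exact ⟨h1, h2, hzz⟩
            · exact Or.inr ⟨s0, [z * z1], Alt.one ((side A B s0).mul_mem hz hz1) hzz, by simp⟩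
          | @cons _ z1 l1 hz1 hd1 hl1 =>
            by_cases hzz : Commute (z * z1) d
            · obtain ⟨h1, h2⟩ := hboth s0 (z * z1) ((side A B s0).mul_mem hz hz1) hzz
              obtain ⟨l', hl', hp⟩ := hl1.absorb h1 h2 hzz
              exact Or.inr ⟨!s0, l', hl', by rw [hp, List.prod_cons, mul_assoc]⟩
            · exact Or.inr ⟨s0, (z * z1) :: l1,
                Alt.cons ((side A B s0).mul_mem hz hz1) hzz hl1, by simp [mul_assoc]⟩
        · have := hbn s0 s hs
          subst this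
          exact Or.inr ⟨s0, z :: l, Alt.cons hz hzd hl, by simp⟩
  rw [Subgroup.sup_eq_closure] at hg
  induction hg using Subgroup.closure_induction_left with
  | one => exact Or.inl ⟨A.one_mem, B.one_mem, Commute.one_left d⟩
  | mul_left x hx y hy ih =>
    rcases hx with hx | hx
    · exact step true x hx y ih
    · exact step false x hx y ih
  | inv_mul_cancel x hx y hy ih =>
    rcases hx with hx | hx
    · exact step true x⁻¹ (A.inv_mem hx) y ih
    · exact step false x⁻¹ (B.inv_mem hx) y ih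

end alternating

/-- The polynomial induction step. -/
theorem poly_step (P1 P2 : ℤ[X]) (a b c e k : ℤ) (hb : b ≠ 0) (hk : k ≠ 0) (h1 : P1 ≠ 0)
    (h2 : P2.natDegree ≤ P1.natDegree) :
    (C a * P1 + C b * (P2 + C k * X * P1) ≠ 0) ∧
    (C c * P1 + C e * (P2 + C k * X * P1)).natDegree ≤
      (C a * P1 + C b * (P2 + C k * X * P1)).natDegree := by
  set D := P1.natDegree with hD
  have hXP : (C k * X * P1).natDegree ≤ D + 1 := by
    calc (C k * X * P1).natDegree ≤ (C k * X).natDegree + P1.natDegree := natDegree_mul_le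
      _ ≤ 1 + D := by
          have : (C k * X : ℤ[X]).natDegree ≤ 1 :=
            (natDegree_C_mul_le k X).trans natDegree_X_le
          omega
      _ = D + 1 := by ring
  have hQ : ∀ u v : ℤ, (C u * P1 + C v * (P2 + C k * X * P1)).natDegree ≤ D + 1 := by
    intro u v
    apply natDegree_add_le_of_degree_le
    · exact (natDegree_C_mul_le u P1).trans (by omega)
    · refine (natDegree_C_mul_le v _).trans ?_
      apply natDegree_add_le_of_degree_le
      · omega
      · exact hXP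
  have hcoef : (C a * P1 + C b * (P2 + C k * X * P1)).coeff (D + 1) = b * (k * P1.leadingCoeff) := by
    have e1 : P1.coeff (D + 1) = 0 := coeff_eq_zero_of_natDegree_lt (by omega)
    have e2 : P2.coeff (D + 1) = 0 := coeff_eq_zero_of_natDegree_lt (by omega)
    rw [coeff_add, coeff_C_mul, coeff_C_mul, coeff_add, mul_assoc (C k) X P1, coeff_C_mul,
      coeff_X_mul, e1, e2, mul_zero, zero_add, zero_add]
    rfl
  have hne : (C a * P1 + C b * (P2 + C k * X * P1)).coeff (D + 1) ≠ 0 := by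
    rw [hcoef]
    exact mul_ne_zero hb (mul_ne_zero hk (leadingCoeff_ne_zero.mpr h1))
  refine ⟨fun h => hne (by rw [h]; simp), ?_⟩
  exact (hQ c e).trans (le_natDegree_of_ne_zero hne)

theorem eventually_eval_ne_zero (P : ℤ[X]) (hP : P ≠ 0) :
    ∀ᶠ n : ℕ in atTop, P.eval (n : ℤ) ≠ 0 := by
  rw [← Nat.cofinite_eq_atTop, Filter.eventually_cofinite]
  have hfin : {z : ℤ | P.IsRoot z}.Finite := Polynomial.finite_setOfPred_isRoot hP
  have : {x : ℕ | ¬ P.eval (x : ℤ) ≠ 0} = (fun n : ℕ => (n : ℤ)) ⁻¹' {z : ℤ | P.IsRoot z} := by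
    ext n
    simp [Polynomial.IsRoot]
  rw [this]
  exact hfin.preimage (Nat.cast_injective.injOn)

section big

variable {Λ G : Type} [Group Λ] [Group G]

/-- Big powers: if the letters of an alternating word are not sent to matrices fixing the
parabolic fixed point then the twisted images of the word are eventually nontrivial. -/
theorem big_powers (A B : Subgroup Λ) (d : Λ) (ρ : G →* GL (Fin 2) ℤ) (f : Λ →* G)
    (Φ : ℕ → Λ →* G) (c : ℕ → G) (κ : ℤ) (hκ : κ ≠ 0)
    (hc : ∀ n, (ρ (c n) : Matrix (Fin 2) (Fin 2) ℤ) = !![1, 0; κ * n, 1])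
    (hA : ∀ n, ∀ z ∈ A, Φ n z = f z)
    (hB : ∀ n, ∀ z ∈ B, Φ n z = c n * f z * (c n)⁻¹)
    {s : Bool} {l : List Λ} (hl : Alt A B d s l)
    (hz : ∀ z ∈ l, (ρ (f z) : Matrix (Fin 2) (Fin 2) ℤ) 0 1 ≠ 0) :
    ∀ᶠ n : ℕ in atTop, Φ n l.prod ≠ 1 := by
  -- inverse matrices
  have hci : ∀ n, (ρ ((c n)⁻¹) : Matrix (Fin 2) (Fin 2) ℤ) = !![1, 0; (-κ) * n, 1] := by
    intro n
    have h1 : (ρ (c n) : Matrix (Fin 2) (Fin 2) ℤ) * !![1, 0; (-κ) * n, 1] = 1 := by
      rw [hc n, Matrix.mul_fin_two, Matrix.one_fin_two]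
      ext i j
      fin_cases i <;> fin_cases j <;> simp
    have h2 : (ρ ((c n)⁻¹) : Matrix (Fin 2) (Fin 2) ℤ) * (ρ (c n) : Matrix (Fin 2) (Fin 2) ℤ) = 1 := by
      rw [← Units.val_mul, ← map_mul, inv_mul_cancel, map_one, Units.val_one]
    calc (ρ ((c n)⁻¹) : Matrix (Fin 2) (Fin 2) ℤ)
        = (ρ ((c n)⁻¹) : Matrix (Fin 2) (Fin 2) ℤ) *
          ((ρ (c n) : Matrix (Fin 2) (Fin 2) ℤ) * !![1, 0; (-κ) * n, 1]) := by rw [h1, mul_one]
      _ = !![1, 0; (-κ) * n, 1] := by rw [← mul_assoc, h2, one_mul]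
  let cc : Bool → ℕ → G := fun s n => cond s 1 (c n)
  have hcc : ∀ s n, (ρ ((cc s n)⁻¹) : Matrix (Fin 2) (Fin 2) ℤ).mulVec ![0, 1] = ![0, 1] := by
    intro s n
    cases s
    · change (ρ ((c n)⁻¹) : Matrix (Fin 2) (Fin 2) ℤ).mulVec ![0, 1] = ![0, 1]
      rw [hci]
      ext i
      fin_cases i <;> simp [Matrix.mulVec, dotProduct, Fin.sum_univ_two]
    · change (ρ ((1 : G)⁻¹) : Matrix (Fin 2) (Fin 2) ℤ).mulVec ![0, 1] = ![0, 1]
      simp
  have hΦ : ∀ s n z, z ∈ side A B s → Φ n z = cc s n * f z * (cc s n)⁻¹ := by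
    intro s n z hz
    cases s
    · exact hB n z hz
    · change Φ n z = 1 * f z * 1⁻¹
      simpa using hA n z hz
  have hturn : ∀ s : Bool, ∃ k : ℤ, k ≠ 0 ∧ ∀ n : ℕ,
      (ρ ((cc s n)⁻¹ * cc (!s) n) : Matrix (Fin 2) (Fin 2) ℤ) = !![1, 0; k * n, 1] := by
    intro s
    cases s
    · refine ⟨-κ, by simpa using hκ, fun n => ?_⟩
      change (ρ ((c n)⁻¹ * 1) : Matrix (Fin 2) (Fin 2) ℤ) = _
      rw [mul_one]
      exact hci n
    · refine ⟨κ, hκ, fun n => ?_⟩
      change (ρ ((1 : G)⁻¹ * c n) : Matrix (Fin 2) (Fin 2) ℤ) = _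
      rw [inv_one, one_mul]
      exact hc n
  have key : ∃ P1 P2 : ℤ[X], P1 ≠ 0 ∧ P2.natDegree ≤ P1.natDegree ∧ ∀ n : ℕ,
      (ρ ((cc s n)⁻¹ * Φ n l.prod) : Matrix (Fin 2) (Fin 2) ℤ).mulVec ![0, 1] =
        ![P1.eval (n : ℤ), P2.eval (n : ℤ)] := by
    induction hl with
    | @one s z hzs hd =>
      have hβ := hz z (by simp)
      refine ⟨C ((ρ (f z) : Matrix (Fin 2) (Fin 2) ℤ) 0 1),
        C ((ρ (f z) : Matrix (Fin 2) (Fin 2) ℤ) 1 1), by simpa using hβ, by simp, fun n => ?_⟩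
      have e : (cc s n)⁻¹ * Φ n [z].prod = f z * (cc s n)⁻¹ := by
        rw [List.prod_singleton, hΦ s n z hzs]
        group
      rw [e, map_mul, Units.val_mul, ← Matrix.mulVec_mulVec, hcc s n]
      ext i
      fin_cases i <;> simp [Matrix.mulVec, dotProduct, Fin.sum_univ_two]
    | @cons s z l hzs hd hl ih =>
      obtain ⟨P1, P2, h1, h2, h3⟩ := ih (fun w hw => hz w (List.mem_cons_of_mem _ hw))
      obtain ⟨k, hk, hk2⟩ := hturn s
      have hβ := hz z (by simp)
      have hst := poly_step P1 P2 ((ρ (f z) : Matrix (Fin 2) (Fin 2) ℤ) 0 0)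
        ((ρ (f z) : Matrix (Fin 2) (Fin 2) ℤ) 0 1) ((ρ (f z) : Matrix (Fin 2) (Fin 2) ℤ) 1 0)
        ((ρ (f z) : Matrix (Fin 2) (Fin 2) ℤ) 1 1) k hβ hk h1 h2
      refine ⟨_, _, hst.1, hst.2, fun n => ?_⟩
      have e : (cc s n)⁻¹ * Φ n (z :: l).prod =
          f z * (((cc s n)⁻¹ * cc (!s) n) * ((cc (!s) n)⁻¹ * Φ n l.prod)) := by
        rw [List.prod_cons, map_mul, hΦ s n z hzs]
        group
      rw [e, map_mul, Units.val_mul, ← Matrix.mulVec_mulVec, map_mul ρ ((cc s n)⁻¹ * cc (!s) n),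
        Units.val_mul, ← Matrix.mulVec_mulVec, h3 n, hk2 n]
      ext i
      fin_cases i
      · simp only [Matrix.mulVec, dotProduct, Fin.sum_univ_two, Fin.zero_eta, Matrix.of_apply,
          Matrix.cons_val', Matrix.cons_val_zero, Matrix.cons_val_one, Matrix.cons_val_fin_one,
          eval_add, eval_mul, eval_C, eval_X]
        ring
      · simp only [Matrix.mulVec, dotProduct, Fin.sum_univ_two, Fin.mk_one, Matrix.of_apply,
          Matrix.cons_val', Matrix.cons_val_zero, Matrix.cons_val_one, Matrix.cons_val_fin_one,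
          eval_add, eval_mul, eval_C, eval_X]
        ring
  obtain ⟨P1, P2, h1, -, h3⟩ := key
  filter_upwards [eventually_eval_ne_zero P1 h1] with n hn h
  apply hn
  have h4 := congrFun (h3 n) 0
  rw [h, mul_one, hcc s n] at h4
  simpa using h4.symm

end big

end Pool.Agent.Helper36.EC
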