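import Mathlib
import Pool.Agent.Helper36.ECBig

set_option autoImplicit false

namespace Pool.Agent.Helper36.EC

open Matrix Filter

/-- The ambient free group of rank four. -/
abbrev F4 := FreeGroup (Fin 4)
/-- The free group of rank two. -/
abbrev G2 := FreeGroup (Fin 2)

def xx : G2 := FreeGroup.of 0
def yy : G2 := FreeGroup.of 1
def al : G2 := xx ^ 2 * yy⁻¹
def de : G2 := xx ^ 2 * yy ^ 2

def gb : F4 := FreeGroup.of 0
def ge : F4 := FreeGroup.of 1
def gp : F4 := FreeGroup.of 2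
def gq : F4 := FreeGroup.of 3
def ga : F4 := gp ^ 2 * gq ^ 2 * (ge ^ 3)⁻¹
def gd : F4 := gp ^ 2 * gq ^ 2

/-- The first family of homomorphisms. -/
def psi (n : ℕ) : F4 →* G2 :=
  FreeGroup.lift ![xx, yy, de ^ (2 * n) * xx * (de ^ (2 * n))⁻¹,
    de ^ (2 * n) * yy * (de ^ (2 * n))⁻¹]

/-- The second family of homomorphisms. -/
def phi (n m : ℕ) : F4 →* G2 :=
  FreeGroup.lift ![xx, al ^ m * yy * (al ^ m)⁻¹,
    al ^ m * (de ^ (2 * n) * xx * (de ^ (2 * n))⁻¹) * (al ^ m)⁻¹,
    al ^ m * (de ^ (2 * n) * yy * (de ^ (2 * n))⁻¹) * (al ^ m)⁻¹]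

theorem psi_gb (n : ℕ) : psi n gb = xx := by simp [psi, gb]
theorem psi_ge (n : ℕ) : psi n ge = yy := by simp [psi, ge]
theorem psi_gp (n : ℕ) : psi n gp = de ^ (2 * n) * xx * (de ^ (2 * n))⁻¹ := by simp [psi, gp]
theorem psi_gq (n : ℕ) : psi n gq = de ^ (2 * n) * yy * (de ^ (2 * n))⁻¹ := by simp [psi, gq]
theorem phi_gb (n m : ℕ) : phi n m gb = xx := by simp [phi, gb]
theorem phi_ge (n m : ℕ) : phi n m ge = al ^ m * psi n ge * (al ^ m)⁻¹ := by
  rw [psi_ge]; simp [phi, ge]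
theorem phi_gp (n m : ℕ) : phi n m gp = al ^ m * psi n gp * (al ^ m)⁻¹ := by
  rw [psi_gp]; simp [phi, gp]
theorem phi_gq (n m : ℕ) : phi n m gq = al ^ m * psi n gq * (al ^ m)⁻¹ := by
  rw [psi_gq]; simp [phi, gq]

theorem psi_gd (n : ℕ) : psi n gd = de := by
  have hc : Commute (de ^ (2 * n)) de := (Commute.refl de).pow_left _
  have h : psi n gd = de ^ (2 * n) * (xx ^ 2 * yy ^ 2) * (de ^ (2 * n))⁻¹ := by
    rw [gd, map_mul, map_pow, map_pow, psi_gp, psi_gq, conj_pow, conj_pow]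
    group
  rw [h]
  change de ^ (2 * n) * de * (de ^ (2 * n))⁻¹ = de
  rw [hc.eq]
  group

theorem psi_ga (n : ℕ) : psi n ga = al := by
  have h : ga = gd * (ge ^ 3)⁻¹ := rfl
  rw [h, map_mul, psi_gd, map_inv, map_pow, psi_ge, de, al]
  group

/-- `⟨a, e⟩`. -/
def P1 : Subgroup F4 := Subgroup.closure {ga, ge}
/-- `⟨p, q⟩`. -/
def P2 : Subgroup F4 := Subgroup.closure {gp, gq}
/-- `⟨e, p, q⟩`. -/
def Gam : Subgroup F4 := Subgroup.closure {ge, gp, gq}
/-- The subgroup `H = ⟨a, b⟩`. -/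
def HF : Subgroup F4 := Subgroup.closure {ga, gb}

theorem psi_P1 (n : ℕ) : ∀ z ∈ P1, psi n z = psi 0 z := by
  have h : Set.EqOn (psi n) (psi 0) {ga, ge} := by
    rintro z (rfl | rfl)
    · rw [psi_ga, psi_ga]
    · rw [psi_ge, psi_ge]
  exact fun z hz => MonoidHom.eqOn_closure h hz

theorem psi_HF (n : ℕ) : ∀ z ∈ HF, psi n z = psi 0 z := by
  have h : Set.EqOn (psi n) (psi 0) {ga, gb} := by
    rintro z (rfl | rfl)
    · rw [psi_ga, psi_ga]
    · rw [psi_gb, psi_gb]
  exact fun z hz => MonoidHom.eqOn_closure h hz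

theorem psi_P2 (n : ℕ) : ∀ z ∈ P2, psi n z = de ^ (2 * n) * psi 0 z * (de ^ (2 * n))⁻¹ := by
  have h : Set.EqOn (psi n) ((MulAut.conj (de ^ (2 * n))).toMonoidHom.comp (psi 0)) {gp, gq} := by
    rintro z (rfl | rfl)
    · change psi n gp = de ^ (2 * n) * psi 0 gp * (de ^ (2 * n))⁻¹
      rw [psi_gp, psi_gp]
      simp
    · change psi n gq = de ^ (2 * n) * psi 0 gq * (de ^ (2 * n))⁻¹
      rw [psi_gq, psi_gq]
      simp
  intro z hz
  exact MonoidHom.eqOn_closure h hz

theorem phi_HF (n m : ℕ) : ∀ z ∈ HF, phi n m z = psi n z := by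
  have h : Set.EqOn (phi n m) (psi n) {ga, gb} := by
    rintro z (rfl | rfl)
    · rw [psi_ga]
      have h : phi n m ga = al ^ m * psi n ga * (al ^ m)⁻¹ := by
        rw [ga, map_mul, map_mul, map_inv, map_pow, map_pow, map_pow, phi_gp, phi_gq, phi_ge,
          conj_pow, conj_pow, conj_pow, map_mul, map_mul, map_inv, map_pow, map_pow, map_pow]
        group
      rw [h, psi_ga]
      have hc : Commute (al ^ m) al := (Commute.refl al).pow_left _
      rw [hc.eq]
      group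
    · rw [psi_gb, phi_gb]
  exact fun z hz => MonoidHom.eqOn_closure h hz

theorem phi_Gam (n m : ℕ) : ∀ z ∈ Gam, phi n m z = al ^ m * psi n z * (al ^ m)⁻¹ := by
  have h : Set.EqOn (phi n m) ((MulAut.conj (al ^ m)).toMonoidHom.comp (psi n)) {ge, gp, gq} := by
    rintro z (rfl | rfl | rfl)
    · exact phi_ge n m
    · exact phi_gp n m
    · exact phi_gq n m
  intro z hz
  exact MonoidHom.eqOn_closure h hz

/-! ### Injectivity of `psi 0` on the three pieces -/

theorem inj_P2 : ∀ z ∈ P2, psi 0 z = 1 → z = 1 := by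
  have h : Set.EqOn ((FreeGroup.lift ![gp, gq]).comp (psi 0)) (MonoidHom.id F4) {gp, gq} := by
    rintro z (rfl | rfl)
    · simp [psi_gp, xx]
    · simp [psi_gq, yy]
  intro z hz h1
  have h2 := MonoidHom.eqOn_closure h hz
  simpa [h1] using h2.symm

/-- The embedding of the free group of rank two onto `H`. -/
def iota : G2 →* F4 := FreeGroup.lift ![gb, ga⁻¹ * gb ^ 2]

theorem iota_xx : iota xx = gb := by simp [iota, xx]
theorem iota_yy : iota yy = ga⁻¹ * gb ^ 2 := by simp [iota, yy]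
theorem iota_al : iota al = ga := by
  rw [al, map_mul, map_pow, map_inv, iota_xx, iota_yy]
  group

theorem iota_psi : ∀ z ∈ HF, iota (psi 0 z) = z := by
  have h : Set.EqOn (iota.comp (psi 0)) (MonoidHom.id F4) {ga, gb} := by
    rintro z (rfl | rfl)
    · simp [psi_ga, iota_al]
    · simp [psi_gb, iota_xx]
  intro z hz
  exact MonoidHom.eqOn_closure h hz

theorem inj_HF : ∀ z ∈ HF, psi 0 z = 1 → z = 1 := by
  intro z hz h1
  rw [← iota_psi z hz, h1, map_one]

/-- Left multiplication on two copies of `F4`. -/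
def Lm : F4 →* Equiv.Perm (F4 × Bool) where
  toFun z := (Equiv.mulLeft z).prodCongr (Equiv.refl Bool)
  map_one' := by ext1 ⟨g, s⟩; simp
  map_mul' z w := by ext1 ⟨g, s⟩; simp [mul_assoc]

/-- A square root of left multiplication by `a e`. -/
def tau : Equiv.Perm (F4 × Bool) where
  toFun v := if v.2 then (ga * ge * v.1, false) else (v.1, true)
  invFun v := if v.2 then (v.1, false) else ((ga * ge)⁻¹ * v.1, true)
  left_inv := by rintro ⟨g, s⟩; cases s <;> simp [mul_assoc]
  right_inv := by rintro ⟨g, s⟩; cases s <;> simp [mul_assoc]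

theorem tau_sq : tau ^ 2 = Lm (ga * ge) := by
  ext1 ⟨g, s⟩
  rw [pow_two, Equiv.Perm.mul_apply]
  cases s
  · simp [tau, Lm]
  · simp [tau, Lm]

theorem inj_P1 : ∀ z ∈ P1, psi 0 z = 1 → z = 1 := by
  have h : Set.EqOn ((FreeGroup.lift ![tau, Lm ge]).comp (psi 0)) Lm {ga, ge} := by
    rintro z (rfl | rfl)
    · rw [MonoidHom.comp_apply, psi_ga, al, map_mul, map_pow, map_inv]
      simp only [xx, yy, FreeGroup.lift_apply_of, Matrix.cons_val_zero, Matrix.cons_val_one,
        Matrix.cons_val_fin_one]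
      rw [tau_sq, ← map_inv, ← map_mul]
      simp
    · rw [MonoidHom.comp_apply, psi_ge]
      simp [yy]
  intro z hz h1
  have h2 := MonoidHom.eqOn_closure h hz
  rw [MonoidHom.comp_apply, h1, map_one] at h2
  have h3 := congrArg (fun σ : Equiv.Perm (F4 × Bool) => (σ (1, true)).1) h2
  simpa [Lm] using h3.symm

/-! ### Centralizers -/

/-- The representation of the punctured Klein bottle group. -/
def rhoK : G2 →* GL (Fin 2) ℤ := FreeGroup.lift ![KX, KY]

theorem rhoK_inj : Function.Injective rhoK := injK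

theorem rhoK_de : (rhoK de : Matrix (Fin 2) (Fin 2) ℤ) = !![-1, 0; 6, -1] := by
  rw [de, map_mul, map_pow, map_pow]
  simp only [rhoK, xx, yy, FreeGroup.lift_apply_of, Matrix.cons_val_zero, Matrix.cons_val_one,
    Matrix.cons_val_fin_one, Units.val_mul, Units.val_pow_eq_pow_val, pow_two, KX, KY, mk]
  simp only [Matrix.mul_fin_two]
  norm_num

theorem rhoK_de_pow (n : ℕ) : (rhoK (de ^ (2 * n)) : Matrix (Fin 2) (Fin 2) ℤ) =
    !![1, 0; (-12) * (n : ℤ), 1] := by
  rw [pow_mul, map_pow, map_pow, Units.val_pow_eq_pow_val, Units.val_pow_eq_pow_val, rhoK_de]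
  induction n with
  | zero => simp [Matrix.one_fin_two]
  | succ n ih =>
    rw [pow_succ, ih, pow_two, Matrix.mul_fin_two, Matrix.mul_fin_two]
    push_cast
    ext i j
    fin_cases i <;> fin_cases j
    · simp
    · simp
    · simp
      ring
    · simp

theorem de_not_sq (h : G2) : de ≠ h ^ 2 := by
  intro hh
  have h1 := rhoK_de
  rw [hh, map_pow, Units.val_pow_eq_pow_val, pow_two,
    Matrix.eta_fin_two (rhoK h : Matrix (Fin 2) (Fin 2) ℤ), Matrix.mul_fin_two] at h1
  generalize (rhoK h : Matrix (Fin 2) (Fin 2) ℤ) 0 0 = a at *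
  generalize (rhoK h : Matrix (Fin 2) (Fin 2) ℤ) 0 1 = b at *
  generalize (rhoK h : Matrix (Fin 2) (Fin 2) ℤ) 1 0 = c at *
  generalize (rhoK h : Matrix (Fin 2) (Fin 2) ℤ) 1 1 = d at *
  have e00 := congrFun (congrFun h1 0) 0
  have e01 := congrFun (congrFun h1 0) 1
  have e10 := congrFun (congrFun h1 1) 0
  simp at e00 e01 e10
  have h5 : b * (a + d) = 0 := by linarith
  have h6 : c * (a + d) = 6 := by linarith
  rcases mul_eq_zero.mp h5 with hb | had
  · rw [hb] at e00
    nlinarith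
  · rw [had] at h6
    simp at h6

theorem cent_gd (z : F4) (h : Commute z gd) : z ∈ Subgroup.zpowers gd := by
  apply mem_zpowers_of_commute gd z _ h
  intro g j hj
  let χ : F4 →* Multiplicative ℤ := FreeGroup.lift ![1, 1, Multiplicative.ofAdd 1, 1]
  have h1 : χ gd = Multiplicative.ofAdd 2 := by
    simp only [χ, gd, gp, gq, map_mul, map_pow, FreeGroup.lift_apply_of]
    rfl
  have h2 : χ gd = (χ g) ^ j := by rw [← map_zpow, ← hj]
  have h3 : j * Multiplicative.toAdd (χ g) = 2 := by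
    have := congrArg Multiplicative.toAdd (h2.symm.trans h1)
    simpa using this
  have h4 : j ∣ 2 := Dvd.intro _ h3
  have h5 : j.natAbs ∣ 2 := by
    have := Int.natAbs_dvd_natAbs.mpr h4
    simpa using this
  have h6 : j.natAbs ≤ 2 := Nat.le_of_dvd (by norm_num) h5
  have h7 : j ≠ 0 := by rintro rfl; simp at h3
  have h8 : j = 1 ∨ j = -1 ∨ j = 2 ∨ j = -2 := by omega
  rcases h8 with h | h | h | h
  · exact Or.inl h
  · exact Or.inr h
  · exfalso
    apply de_not_sq (psi 0 g)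
    rw [← psi_gd 0, ← map_pow, hj, h]
    rfl
  · exfalso
    apply de_not_sq (psi 0 g⁻¹)
    rw [← psi_gd 0, ← map_pow, hj, h]
    congr 1
    group

theorem cent_ga (z : F4) (h : Commute z ga) : z ∈ Subgroup.zpowers ga := by
  apply mem_zpowers_of_commute ga z _ h
  intro g j hj
  let χ : F4 →* Multiplicative ℤ :=
    FreeGroup.lift ![1, Multiplicative.ofAdd 1, Multiplicative.ofAdd 2, 1]
  have h1 : χ ga = Multiplicative.ofAdd 1 := by
    simp only [χ, ga, gp, gq, ge, map_mul, map_pow, map_inv, FreeGroup.lift_apply_of]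
    rfl
  have h2 : χ ga = (χ g) ^ j := by rw [← map_zpow, ← hj]
  have h3 : j * Multiplicative.toAdd (χ g) = 1 := by
    have := congrArg Multiplicative.toAdd (h2.symm.trans h1)
    simpa using this
  exact Int.eq_one_or_neg_one_of_mul_eq_one h3

/-! ### The first stage -/

theorem gd_mem_P1 : gd ∈ P1 := by
  have h : gd = ga * ge ^ 3 := by rw [ga, gd]; group
  rw [h]
  exact P1.mul_mem (Subgroup.subset_closure (by simp))
    (P1.pow_mem (Subgroup.subset_closure (by simp)) 3)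

theorem gd_mem_P2 : gd ∈ P2 :=
  P2.mul_mem (P2.pow_mem (Subgroup.subset_closure (by simp)) 2)
    (P2.pow_mem (Subgroup.subset_closure (by simp)) 2)

theorem ga_mem_HF : ga ∈ HF := Subgroup.subset_closure (by simp)

theorem gb_mem_HF : gb ∈ HF := Subgroup.subset_closure (by simp)

theorem ga_mem_Gam : ga ∈ Gam :=
  Gam.mul_mem (Gam.mul_mem (Gam.pow_mem (Subgroup.subset_closure (by simp)) 2)
    (Gam.pow_mem (Subgroup.subset_closure (by simp)) 2))
    (Gam.inv_mem (Gam.pow_mem (Subgroup.subset_closure (by simp)) 3))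

theorem Gam_le : Gam ≤ P1 ⊔ P2 := by
  rw [Gam, Subgroup.closure_le]
  rintro z (rfl | rfl | rfl)
  · exact (le_sup_left : P1 ≤ P1 ⊔ P2) (Subgroup.subset_closure (by simp))
  · exact (le_sup_right : P2 ≤ P1 ⊔ P2) (Subgroup.subset_closure (by simp))
  · exact (le_sup_right : P2 ≤ P1 ⊔ P2) (Subgroup.subset_closure (by simp))

theorem top_le : (⊤ : Subgroup F4) ≤ HF ⊔ Gam := by
  rw [← FreeGroup.closure_range_of, Subgroup.closure_le]
  rintro z ⟨i, rfl⟩
  fin_cases i
  · exact (le_sup_left : HF ≤ HF ⊔ Gam) gb_mem_HF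
  · exact (le_sup_right : Gam ≤ HF ⊔ Gam) (Subgroup.subset_closure (by simp [ge]))
  · exact (le_sup_right : Gam ≤ HF ⊔ Gam) (Subgroup.subset_closure (by simp [gp]))
  · exact (le_sup_right : Gam ≤ HF ⊔ Gam) (Subgroup.subset_closure (by simp [gq]))

/-- The commutator with a fixed element, as a test for commutation. -/
theorem comm_ne_one {G : Type} [Group G] {z d : G} (h : ¬ Commute z d) :
    z * d * z⁻¹ * d⁻¹ ≠ 1 := by
  intro h1
  apply h
  have h2 : z * d * z⁻¹ = d := by rwa [mul_inv_eq_one] at h1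
  have h3 : z * d = d * z := by
    calc z * d = (z * d * z⁻¹) * z := by group
      _ = d * z := by rw [h2]
  exact h3

theorem not_commute_image {f : F4 →* G2} {z d : F4} {u : G2} (hd : f d = u)
    (h : f (z * d * z⁻¹ * d⁻¹) ≠ 1) : ¬ Commute (f z) u := by
  intro hc
  apply h
  rw [map_mul, map_mul, map_mul, map_inv, map_inv, hd, hc.eq]
  group

theorem stage1 (g : F4) (hg : g ∈ Gam) (hg1 : g ≠ 1) : ∀ᶠ n : ℕ in atTop, psi n g ≠ 1 := by
  have hAB : ∀ z ∈ P1, Commute z gd → z ∈ P2 := by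
    intro z _ hc
    exact (Subgroup.zpowers_le.mpr gd_mem_P2) (cent_gd z hc)
  have hBA : ∀ z ∈ P2, Commute z gd → z ∈ P1 := by
    intro z _ hc
    exact (Subgroup.zpowers_le.mpr gd_mem_P1) (cent_gd z hc)
  rcases exists_alt hAB hBA (Gam_le hg) with ⟨h1, h2, h3⟩ | ⟨s, l, hl, rfl⟩
  · refine Filter.Eventually.of_forall (fun n h => hg1 (inj_P1 g h1 ?_))
    rwa [psi_P1 n g h1] at h
  · refine big_powers P1 P2 gd rhoK (psi 0) psi (fun n => de ^ (2 * n)) (-12) (by norm_num)
      rhoK_de_pow psi_P1 psi_P2 hl ?_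
    intro z hz h0
    have hnc := hl.not_commute z hz
    have hcm : psi 0 (z * gd * z⁻¹ * gd⁻¹) ≠ 1 := by
      intro h1
      apply comm_ne_one hnc
      rcases hl.mem_union z hz with hz' | hz'
      · exact inj_P1 _ (P1.mul_mem (P1.mul_mem (P1.mul_mem hz' gd_mem_P1) (P1.inv_mem hz'))
          (P1.inv_mem gd_mem_P1)) h1
      · exact inj_P2 _ (P2.mul_mem (P2.mul_mem (P2.mul_mem hz' gd_mem_P2) (P2.inv_mem hz'))
          (P2.inv_mem gd_mem_P2)) h1
    exact not_commute_image (psi_gd 0) hcm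
      (commute_of_entry_zero rhoK rhoK_inj de (psi 0 z) (-1) 6 rhoK_de h0)

/-! ### The second stage -/

/-- The Sanov representation, in which `al` is parabolic. -/
def rhoS : G2 →* GL (Fin 2) ℤ := FreeGroup.lift ![SU, SL⁻¹ * SU ^ 2]

theorem rhoS_al : rhoS al = SL := by
  rw [al, map_mul, map_pow, map_inv]
  simp only [rhoS, xx, yy, FreeGroup.lift_apply_of, Matrix.cons_val_zero, Matrix.cons_val_one,
    Matrix.cons_val_fin_one]
  group

theorem rhoS_inj : Function.Injective rhoS := by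
  let θ : G2 →* G2 := FreeGroup.lift ![xx, yy⁻¹ * xx ^ 2]
  let θ' : G2 →* G2 := FreeGroup.lift ![xx, xx ^ 2 * yy⁻¹]
  have h1 : rhoS = (FreeGroup.lift ![SU, SL]).comp θ := by
    ext i
    fin_cases i
    · simp [rhoS, θ, xx]
    · simp [rhoS, θ, xx, yy]
  have h2 : θ'.comp θ = MonoidHom.id G2 := by
    ext1 i
    fin_cases i
    · simp [θ, θ', xx]
    · simp [θ, θ', xx, yy]
  have h3 : Function.Injective θ := by
    have : Function.LeftInverse θ' θ := fun z => DFunLike.congr_fun h2 z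
    exact this.injective
  rw [h1, MonoidHom.coe_comp]
  exact injS.comp h3

theorem rhoS_al_pow (m : ℕ) : (rhoS (al ^ m) : Matrix (Fin 2) (Fin 2) ℤ) =
    !![1, 0; 2 * (m : ℤ), 1] := by
  rw [map_pow, rhoS_al, Units.val_pow_eq_pow_val]
  induction m with
  | zero => simp [Matrix.one_fin_two]
  | succ n ih =>
    rw [pow_succ, ih]
    simp only [SL, mk, Matrix.mul_fin_two]
    push_cast
    ext i j
    fin_cases i <;> fin_cases j
    · simp
    · simp
    · simp
      ring
    · simp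

theorem rhoS_al' : (rhoS al : Matrix (Fin 2) (Fin 2) ℤ) = !![1, 0; 2, 1] := by
  rw [rhoS_al]
  rfl

theorem stage2 (g : F4) (hg1 : g ≠ 1) :
    ∀ᶠ n : ℕ in atTop, ∀ᶠ m : ℕ in atTop, phi n m g ≠ 1 := by
  have hAB : ∀ z ∈ HF, Commute z ga → z ∈ Gam := by
    intro z _ hc
    exact (Subgroup.zpowers_le.mpr ga_mem_Gam) (cent_ga z hc)
  have hBA : ∀ z ∈ Gam, Commute z ga → z ∈ HF := by
    intro z _ hc
    exact (Subgroup.zpowers_le.mpr ga_mem_HF) (cent_ga z hc)
  rcases exists_alt hAB hBA (top_le (Subgroup.mem_top g)) with ⟨h1, h2, h3⟩ | ⟨s, l, hl, rfl⟩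
  · refine Filter.Eventually.of_forall (fun n => Filter.Eventually.of_forall
      (fun m h => hg1 (inj_HF g h1 ?_)))
    rwa [phi_HF n m g h1, psi_HF n g h1] at h
  · have hall : ∀ᶠ n : ℕ in atTop, ∀ z ∈ {z | z ∈ l}, psi n (z * ga * z⁻¹ * ga⁻¹) ≠ 1 := by
      rw [Filter.eventually_all_finite l.finite_toSet]
      intro z hz
      have hz : z ∈ l := hz
      have hnc := comm_ne_one (hl.not_commute z hz)
      rcases hl.mem_union z hz with hz' | hz'
      · have hmem : z * ga * z⁻¹ * ga⁻¹ ∈ HF :=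
          HF.mul_mem (HF.mul_mem (HF.mul_mem hz' ga_mem_HF) (HF.inv_mem hz'))
            (HF.inv_mem ga_mem_HF)
        refine Filter.Eventually.of_forall (fun n h => hnc (inj_HF _ hmem ?_))
        rwa [psi_HF n _ hmem] at h
      · have hmem : z * ga * z⁻¹ * ga⁻¹ ∈ Gam :=
          Gam.mul_mem (Gam.mul_mem (Gam.mul_mem hz' ga_mem_Gam) (Gam.inv_mem hz'))
            (Gam.inv_mem ga_mem_Gam)
        exact stage1 _ hmem hnc
    filter_upwards [hall] with n hn
    refine big_powers HF Gam ga rhoS (psi n) (phi n) (fun m => al ^ m) 2 (by norm_num)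
      rhoS_al_pow (phi_HF n) (phi_Gam n) hl ?_
    intro z hz h0
    exact not_commute_image (psi_ga n) (hn z hz)
      (commute_of_entry_zero rhoS rhoS_inj al (psi n z) 1 2 rhoS_al' h0)

/-- The homomorphisms onto the free group of rank two that are compatible with `H` discriminate
the ambient free group. -/
theorem discriminate (S : Finset F4) (hS : ∀ s ∈ S, s ≠ 1) :
    ∃ φ : F4 →* G2, φ ga = al ∧ φ gb = xx ∧ ∀ s ∈ S, φ s ≠ 1 := by
  have h : ∀ᶠ n : ℕ in atTop, ∀ᶠ m : ℕ in atTop, ∀ s ∈ S, phi n m s ≠ 1 := by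
    have h1 : ∀ᶠ n : ℕ in atTop, ∀ s ∈ S, ∀ᶠ m : ℕ in atTop, phi n m s ≠ 1 := by
      rw [Filter.eventually_all_finset]
      exact fun s hs => stage2 s (hS s hs)
    filter_upwards [h1] with n hn
    rw [Filter.eventually_all_finset]
    exact hn
  obtain ⟨n, hn⟩ := h.exists
  obtain ⟨m, hm⟩ := hn.exists
  refine ⟨phi n m, ?_, phi_gb n m, hm⟩
  rw [phi_HF n m ga ga_mem_HF, psi_ga]

end Pool.Agent.Helper36.EC
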